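import Pool.Agent.Q250.AS.Mat

/-!
Generation: a subgroup containing all transvections and `M` is everything.
-/

set_option autoImplicit false

namespace Q250.AS

open Matrix Finset

variable {E : Type*} [Ring E] (D : Data E) {ι : Type*} [Fintype ι] [DecidableEq ι]

/-- matrix with only row `p`, given by `m` -/
def rw' (p : ι) (m : ι → E) : Matrix ι ι E := Matrix.of fun a b => if a = p then m b else 0

/-- matrix with only column `p`, given by `m` -/
def cl' (p : ι) (m : ι → E) : Matrix ι ι E := Matrix.of fun a b => if b = p then m a else 0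

lemma rw'_mul (p : ι) (m : ι → E) (A : Matrix ι ι E) :
    rw' p m * A = rw' p (fun b => ∑ q, m q * A q b) := by
  ext a b
  simp only [rw', Matrix.mul_apply, Matrix.of_apply]
  by_cases h : a = p
  · simp [h]
  · simp [h]

lemma cl'_mul_apply (p : ι) (m : ι → E) (A : Matrix ι ι E) (a b : ι) :
    (cl' p m * A) a b = m a * A p b := by
  simp [cl', Matrix.mul_apply]

lemma rw'_sq (p : ι) (m m' : ι → E) (h : m p = 0) : rw' p m * rw' p m' = (0 : Matrix ι ι E) := by
  rw [rw'_mul]
  ext a b
  simp only [rw', Matrix.of_apply, Matrix.zero_apply]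
  split_ifs
  · rw [Finset.sum_eq_single p]
    · rw [h, zero_mul]
    · intro q _ hq
      rw [if_neg hq, mul_zero]
    · simp
  · rfl

lemma cl'_sq (p : ι) (m m' : ι → E) (h : m' p = 0) : cl' p m * cl' p m' = (0 : Matrix ι ι E) := by
  ext a b
  rw [cl'_mul_apply]
  simp only [cl', Matrix.of_apply, Matrix.zero_apply]
  split_ifs
  · rw [h, mul_zero]
  · rw [mul_zero]

variable (K : Subgroup (Matrix ι ι E)ˣ)

lemma rowop_mem (hK : ∀ {j i : ι} (h : j ≠ i) (b : E), el h b ∈ K) (p : ι) (m : ι → E)
    (h : m p = 0) : uni (rw' p m) (rw'_sq p m m h) ∈ K := by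
  have key : ∀ s : Finset ι, p ∉ s → ∀ (m : ι → E) (_ : ∀ q, q ∉ s → m q = 0) (h : m p = 0),
      uni (rw' p m) (rw'_sq p m m h) ∈ K := by
    intro s
    induction s using Finset.induction_on with
    | empty =>
      intro _ m hm h
      have : uni (rw' p m) (rw'_sq p m m h) = (1 : (Matrix ι ι E)ˣ) := by
        ext a b
        simp [rw', hm b (by simp)]
      rw [this]; exact K.one_mem
    | insert q s hq ih =>
      intro hp m hm h
      have hpq : p ≠ q := fun h => hp (by simp [h])
      have hps : p ∉ s := fun h => hp (by simp [h])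
      set m' : ι → E := fun a => if a = q then 0 else m a with hm'
      have hm'p : m' p = 0 := by simp [hm', h]
      have h1 := ih hps m' (by
        intro a ha
        by_cases haq : a = q
        · simp [hm', haq]
        · simp only [hm', haq, if_false]
          exact hm a (by simp [haq, ha])) hm'p
      have e : uni (rw' p m) (rw'_sq p m m h) =
          (el hpq (m q) * uni (rw' p m') (rw'_sq p m' m' hm'p) : (Matrix ι ι E)ˣ) := by
        ext1
        simp only [el, uni_val, Units.val_mul]
        have e1 : single p q (m q) * rw' p m' = (0 : Matrix ι ι E) := by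
          ext a b
          by_cases hap : a = p
          · subst hap
            rw [Matrix.single_mul_apply_same]
            simp [rw', Ne.symm hpq]
          · rw [Matrix.single_mul_apply_of_ne _ _ _ _ _ hap]; rfl
        have e2 : rw' p m = single p q (m q) + rw' p m' := by
          ext a b
          simp only [rw', Matrix.of_apply, Matrix.add_apply, Matrix.single_apply, hm']
          by_cases c1 : a = p <;> by_cases c2 : b = q
          · subst c1; subst c2; simp
          · subst c1; simp [c2, Ne.symm c2]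
          · subst c2; simp [c1, Ne.symm c1]
          · simp [c1, Ne.symm c1]
        calc 1 + rw' p m = 1 + single p q (m q) + rw' p m' + single p q (m q) * rw' p m' := by
              rw [e1, e2]; abel
          _ = _ := by noncomm_ring
      rw [e]
      exact K.mul_mem (hK hpq _) h1
  exact key (Finset.univ.erase p) (by simp) m (by
    intro q hq
    have : q = p := by simpa using hq
    rw [this, h]) h

lemma colop_mem (hK : ∀ {j i : ι} (h : j ≠ i) (b : E), el h b ∈ K) (p : ι) (m : ι → E)
    (h : m p = 0) : uni (cl' p m) (cl'_sq p m m h) ∈ K := by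
  have key : ∀ s : Finset ι, p ∉ s → ∀ (m : ι → E) (_ : ∀ q, q ∉ s → m q = 0) (h : m p = 0),
      uni (cl' p m) (cl'_sq p m m h) ∈ K := by
    intro s
    induction s using Finset.induction_on with
    | empty =>
      intro _ m hm h
      have : uni (cl' p m) (cl'_sq p m m h) = (1 : (Matrix ι ι E)ˣ) := by
        ext a b
        simp [cl', hm a (by simp)]
      rw [this]; exact K.one_mem
    | insert q s hq ih =>
      intro hp m hm h
      have hpq : q ≠ p := fun h => hp (by simp [h])
      have hps : p ∉ s := fun h => hp (by simp [h])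
      set m' : ι → E := fun a => if a = q then 0 else m a with hm'
      have hm'p : m' p = 0 := by simp [hm', h]
      have h1 := ih hps m' (by
        intro a ha
        by_cases haq : a = q
        · simp [hm', haq]
        · simp only [hm', haq, if_false]
          exact hm a (by simp [haq, ha])) hm'p
      have e : uni (cl' p m) (cl'_sq p m m h) =
          (el hpq (m q) * uni (cl' p m') (cl'_sq p m' m' hm'p) : (Matrix ι ι E)ˣ) := by
        ext1
        simp only [el, uni_val, Units.val_mul]
        have e1 : single q p (m q) * cl' p m' = (0 : Matrix ι ι E) := by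
          ext a b
          by_cases hap : a = q
          · subst hap
            rw [Matrix.single_mul_apply_same]
            simp [cl', hm'p]
          · rw [Matrix.single_mul_apply_of_ne _ _ _ _ _ hap]; rfl
        have e2 : cl' p m = single q p (m q) + cl' p m' := by
          ext a b
          simp only [cl', Matrix.of_apply, Matrix.add_apply, Matrix.single_apply, hm']
          by_cases c1 : b = p <;> by_cases c2 : a = q
          · subst c1; subst c2; simp
          · subst c1; simp [c2, Ne.symm c2]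
          · subst c2; simp [c1, Ne.symm c1]
          · simp [c1, Ne.symm c1]
        calc 1 + cl' p m = 1 + single q p (m q) + cl' p m' + single q p (m q) * cl' p m' := by
              rw [e1, e2]; abel
          _ = _ := by noncomm_ring
      rw [e]
      exact K.mul_mem (hK hpq _) h1
  exact key (Finset.univ.erase p) (by simp) m (by
    intro q hq
    have : q = p := by simpa using hq
    rw [this, h]) h

/-- columns in `s` are standard -/
def Good (s : Finset ι) (g : Matrix ι ι E) : Prop := ∀ i ∈ s, ∀ l, g l i = if l = i then 1 else 0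

/-- The effect of a row operation whose coefficients vanish on `s`. -/
lemma good_rowop (s : Finset ι) (g : Matrix ι ι E) (hg : Good s g) (p : ι) (m : ι → E)
    (hm : ∀ q ∈ s, m q = 0) : Good s ((1 + rw' p m) * g) := by
  intro i hi l
  rw [Matrix.add_mul, Matrix.one_mul, Matrix.add_apply, rw'_mul]
  have : (∑ q, m q * g q i) = 0 := by
    refine Finset.sum_eq_zero fun q _ => ?_
    rw [hg i hi q]
    split_ifs with h
    · rw [h, hm i hi, zero_mul]
    · rw [mul_zero]
  simp only [rw', Matrix.of_apply, this, ite_self, add_zero]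
  exact hg i hi l

lemma rowop_apply_self (g : Matrix ι ι E) (p : ι) (m : ι → E) (k : ι) :
    ((1 + rw' p m) * g) p k = g p k + ∑ q, m q * g q k := by
  rw [Matrix.add_mul, Matrix.one_mul, Matrix.add_apply, rw'_mul]
  simp [rw']

lemma rowop_apply_ne (g : Matrix ι ι E) (p : ι) (m : ι → E) (k l : ι) (h : l ≠ p) :
    ((1 + rw' p m) * g) l k = g l k := by
  rw [Matrix.add_mul, Matrix.one_mul, Matrix.add_apply, rw'_mul]
  simp [rw', h]

/-- rows of the inverse vanish on standard columns -/
lemma inv_zero (s : Finset ι) (g : (Matrix ι ι E)ˣ) (hg : Good s (g : Matrix ι ι E)) (k : ι)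
    (hk : k ∉ s) (l : ι) (hl : l ∈ s) : ((g⁻¹ : (Matrix ι ι E)ˣ) : Matrix ι ι E) k l = 0 := by
  have h := congrFun (congrFun g.inv_mul k) l
  rw [Matrix.mul_apply, Finset.sum_eq_single l] at h
  · rw [hg l hl l, if_pos rfl, mul_one] at h
    rw [h]
    exact Matrix.one_apply_ne (fun h => hk (h ▸ hl))
  · intro q _ hq
    rw [hg l hl q, if_neg hq, mul_zero]
  · simp

/-- `K`-equivalence -/
def Eqv (g g' : (Matrix ι ι E)ˣ) : Prop := ∃ h ∈ K, g' = h * g

lemma Eqv.trans' {g g' g'' : (Matrix ι ι E)ˣ} (h1 : Eqv K g g') (h2 : Eqv K g' g'') :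
    Eqv K g g'' := by
  obtain ⟨a, ha, rfl⟩ := h1
  obtain ⟨b, hb, rfl⟩ := h2
  exact ⟨b * a, K.mul_mem hb ha, by group⟩

lemma Eqv.refl' (g : (Matrix ι ι E)ˣ) : Eqv K g g := ⟨1, K.one_mem, by group⟩

/-- row operation as an equivalence -/
lemma rowop_eqv (hK : ∀ {j i : ι} (h : j ≠ i) (b : E), el h b ∈ K) (s : Finset ι)
    (g : (Matrix ι ι E)ˣ) (hg : Good s (g : Matrix ι ι E)) (p : ι) (m : ι → E) (h : m p = 0)
    (hm : ∀ q ∈ s, m q = 0) :
    ∃ g' : (Matrix ι ι E)ˣ, Eqv K g g' ∧ Good s (g' : Matrix ι ι E) ∧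
      (∀ k, (g' : Matrix ι ι E) p k = (g : Matrix ι ι E) p k
        + ∑ q, m q * (g : Matrix ι ι E) q k) ∧
      (∀ k l, l ≠ p → (g' : Matrix ι ι E) l k = (g : Matrix ι ι E) l k) := by
  refine ⟨uni (rw' p m) (rw'_sq p m m h) * g, ⟨_, rowop_mem K hK p m h, rfl⟩, ?_, ?_, ?_⟩
  · rw [Units.val_mul, uni_val]; exact good_rowop s _ hg p m hm
  · intro k
    rw [Units.val_mul, uni_val]; exact rowop_apply_self _ p m k
  · intro k l hl
    rw [Units.val_mul, uni_val]; exact rowop_apply_ne _ p m k l hl

include D in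
/-- Some entry of column `k` outside `s` becomes left invertible. -/
lemma step4a (hK : ∀ {j i : ι} (h : j ≠ i) (b : E), el h b ∈ K) (s : Finset ι)
    (g : (Matrix ι ι E)ˣ) (hg : Good s (g : Matrix ι ι E)) (k j : ι) (hk : k ∉ s) (hj : j ∉ s)
    (hjk : j ≠ k) :
    ∃ g' : (Matrix ι ι E)ˣ, Eqv K g g' ∧ Good s (g' : Matrix ι ι E) ∧
      ∃ i, i ∉ s ∧ ∃ L, L * (g' : Matrix ι ι E) i k = 1 := by
  set r : ι → E := fun l => ((g⁻¹ : (Matrix ι ι E)ˣ) : Matrix ι ι E) j l with hr
  have hr0 : ∀ l ∈ s, r l = 0 := fun l hl => inv_zero s g hg j hj l hl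
  obtain ⟨i, hi⟩ : ∃ i, r i ∉ D.I := exists_row D g⁻¹ j
  have his : i ∉ s := by
    intro h
    apply hi
    rw [hr0 i h]; exact D.I.zero_mem
  obtain ⟨p, q, hpq⟩ := D.P1 (r i) hi
  set w := D.t1 * p * r i with hw
  set w' := q * D.s1 with hw'
  have hww : w * w' = 1 := by
    calc w * w' = D.t1 * (p * r i * q) * D.s1 := by rw [hw, hw']; noncomm_ring
      _ = 1 := by rw [hpq, mul_one, D.t1s1]
  -- first row operation
  set m : ι → E := fun l => if l = i then 0 else w' * (D.t1 * p * r l) with hm
  obtain ⟨g1, he1, hg1, h1a, h1b⟩ := rowop_eqv K hK s g hg i m (by simp [hm]) (by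
    intro l hl
    simp [hm, hr0 l hl])
  have hsum : ∑ l, r l * (g : Matrix ι ι E) l k = 0 := by
    have := congrFun (congrFun g.inv_mul j) k
    rw [Matrix.mul_apply, Matrix.one_apply_ne hjk] at this
    exact this
  have hz : w * (g1 : Matrix ι ι E) i k = 0 := by
    rw [h1a k, mul_add, Finset.mul_sum]
    have e1 : ∑ l, w * (m l * (g : Matrix ι ι E) l k)
        = ∑ l ∈ Finset.univ.erase i, D.t1 * p * (r l * (g : Matrix ι ι E) l k) := by
      rw [← Finset.add_sum_erase _ _ (Finset.mem_univ i)]
      have : w * (m i * (g : Matrix ι ι E) i k) = 0 := by simp [hm]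
      rw [this, zero_add]
      refine Finset.sum_congr rfl fun l hl => ?_
      have hli := Finset.ne_of_mem_erase hl
      simp only [hm, hli, if_false]
      calc w * (w' * (D.t1 * p * r l) * (g : Matrix ι ι E) l k)
          = (w * w') * (D.t1 * p * (r l * (g : Matrix ι ι E) l k)) := by noncomm_ring
        _ = _ := by rw [hww, one_mul]
    have e2 : w * (g : Matrix ι ι E) i k = D.t1 * p * (r i * (g : Matrix ι ι E) i k) := by
      rw [hw]; noncomm_ring
    rw [e1, e2, Finset.add_sum_erase _ (fun l => D.t1 * p * (r l * (g : Matrix ι ι E) l k))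
      (Finset.mem_univ i), ← Finset.mul_sum, hsum, mul_zero]
  -- second row operation
  set x : ι → E := fun l => ((g1⁻¹ : (Matrix ι ι E)ˣ) : Matrix ι ι E) k l with hx
  have hx0 : ∀ l ∈ s, x l = 0 := fun l hl => inv_zero s g1 hg1 k hk l hl
  have hx1 : ∑ l, x l * (g1 : Matrix ι ι E) l k = 1 := by
    have := congrFun (congrFun g1.inv_mul k) k
    rw [Matrix.mul_apply, Matrix.one_apply_eq] at this
    exact this
  set m2 : ι → E := fun l => if l = i then 0 else w' * x l with hm2
  obtain ⟨g2, he2, hg2, h2a, h2b⟩ := rowop_eqv K hK s g1 hg1 i m2 (by simp [hm2]) (by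
    intro l hl
    simp [hm2, hx0 l hl])
  set z := (g1 : Matrix ι ι E) i k with hzdef
  set y := ∑ l ∈ Finset.univ.erase i, x l * (g1 : Matrix ι ι E) l k with hy
  have hxy : x i * z + y = 1 := by
    rw [← hx1, ← Finset.add_sum_erase _ _ (Finset.mem_univ i)]
  have hnew : (g2 : Matrix ι ι E) i k = z + w' * y := by
    rw [h2a k, hy, Finset.mul_sum, ← Finset.add_sum_erase _ _ (Finset.mem_univ i)]
    have : m2 i * (g1 : Matrix ι ι E) i k = 0 := by simp [hm2]
    rw [this, zero_add]
    congr 1
    refine Finset.sum_congr rfl fun l hl => ?_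
    have hli := Finset.ne_of_mem_erase hl
    simp only [hm2, hli, if_false]
    rw [mul_assoc]
  refine ⟨g2, he1.trans' K he2, hg2, i, his, x i * (1 - w' * w) + w, ?_⟩
  rw [hnew]
  calc (x i * (1 - w' * w) + w) * (z + w' * y)
      = x i * z + (w * w') * y + x i * w' * y - x i * w' * (w * z) - x i * w' * (w * w') * y
        + w * z := by noncomm_ring
    _ = x i * z + y := by rw [hz, hww]; noncomm_ring
    _ = 1 := hxy

/-- make `g k k = 1` -/
lemma step4b (hK : ∀ {j i : ι} (h : j ≠ i) (b : E), el h b ∈ K) (s : Finset ι)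
    (g : (Matrix ι ι E)ˣ) (hg : Good s (g : Matrix ι ι E)) (k i : ι) (hik : i ≠ k)
    (hi : i ∉ s) (L : E) (hL : L * (g : Matrix ι ι E) i k = 1) :
    ∃ g' : (Matrix ι ι E)ˣ, Eqv K g g' ∧ Good s (g' : Matrix ι ι E) ∧
      (g' : Matrix ι ι E) k k = 1 := by
  set m : ι → E := fun l => if l = i then (1 - (g : Matrix ι ι E) k k) * L else 0 with hm
  obtain ⟨g1, he1, hg1, h1a, h1b⟩ := rowop_eqv K hK s g hg k m (by simp [hm, Ne.symm hik]) (by
    intro l hl
    have : l ≠ i := fun h => hi (h ▸ hl)
    simp [hm, this])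
  refine ⟨g1, he1, hg1, ?_⟩
  rw [h1a k, Finset.sum_eq_single i]
  · simp only [hm, if_true]
    rw [mul_assoc, hL]; simp
  · intro l _ hl
    simp [hm, hl]
  · simp

include D in
lemma step4c (hKM : M D ι ≤ K) (hK : ∀ {j i : ι} (h : j ≠ i) (b : E), el h b ∈ K)
    (s : Finset ι) (g : (Matrix ι ι E)ˣ) (hg : Good s (g : Matrix ι ι E)) (k : ι) (hk : k ∉ s) :
    ∃ g' : (Matrix ι ι E)ˣ, Eqv K g g' ∧ Good s (g' : Matrix ι ι E) ∧
      (g' : Matrix ι ι E) k k = 1 := by
  by_cases hex : ∃ j, j ∉ s ∧ j ≠ k
  · obtain ⟨j, hj, hjk⟩ := hex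
    obtain ⟨g1, he1, hg1, i, hi, L, hL⟩ := step4a D K hK s g hg k j hk hj hjk
    by_cases hik : i = k
    · subst hik
      -- first make entry `j` left invertible
      have hsw : ∃ g2 : (Matrix ι ι E)ˣ, Eqv K g1 g2 ∧ Good s (g2 : Matrix ι ι E) ∧
          (g2 : Matrix ι ι E) j i = 1 := by
        set m : ι → E := fun l => if l = i then (1 - (g1 : Matrix ι ι E) j i) * L else 0 with hm
        obtain ⟨g2, he2, hg2, h2a, h2b⟩ := rowop_eqv K hK s g1 hg1 j m (by simp [hm, hjk]) (by
          intro l hl
          have : l ≠ i := fun h => hi (h ▸ hl)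
          simp [hm, this])
        refine ⟨g2, he2, hg2, ?_⟩
        rw [h2a i, Finset.sum_eq_single i]
        · simp only [hm, if_true]
          rw [mul_assoc, hL]; simp
        · intro l _ hl
          simp [hm, hl]
        · simp
      obtain ⟨g2, he2, hg2, h2⟩ := hsw
      obtain ⟨g3, he3, hg3, h3⟩ := step4b K hK s g2 hg2 i j hjk hj 1 (by rw [h2, one_mul])
      exact ⟨g3, (he1.trans' K he2).trans' K he3, hg3, h3⟩
    · obtain ⟨g2, he2, hg2, h2⟩ := step4b K hK s g1 hg1 k i hik hi L hL
      exact ⟨g2, he1.trans' K he2, hg2, h2⟩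
  · push Not at hex
    -- `s` is everything but `k`
    set a := (g : Matrix ι ι E) k k with ha
    set x := ((g⁻¹ : (Matrix ι ι E)ˣ) : Matrix ι ι E) k k with hx
    have hin : ∀ l, l ≠ k → l ∈ s := by
      intro l hl
      by_contra h
      exact hl (hex l h)
    have h1 : x * a = 1 := by
      have := congrFun (congrFun g.inv_mul k) k
      rw [Matrix.mul_apply, Matrix.one_apply_eq, Finset.sum_eq_single k] at this
      · exact this
      · intro l _ hl
        rw [inv_zero s g hg k hk l (hin l hl), zero_mul]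
      · simp
    have h2 : a * x = 1 := by
      have := congrFun (congrFun g.mul_inv k) k
      rw [Matrix.mul_apply, Matrix.one_apply_eq, Finset.sum_eq_single k] at this
      · exact this
      · intro l _ hl
        rw [hg l (hin l hl) k, if_neg (Ne.symm hl), zero_mul]
      · simp
    -- the diagonal unit
    let d : (Matrix ι ι E)ˣ := ⟨Matrix.diagonal (fun l => if l = k then x else 1),
      Matrix.diagonal (fun l => if l = k then a else 1), by
        rw [Matrix.diagonal_mul_diagonal, ← Matrix.diagonal_one]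
        congr 1; ext l; split_ifs <;> simp [h1], by
        rw [Matrix.diagonal_mul_diagonal, ← Matrix.diagonal_one]
        congr 1; ext l; split_ifs <;> simp [h2]⟩
    have hd : d ∈ K := hKM (diag_mem D d (fun i j hj => Matrix.diagonal_apply_ne _ hj))
    refine ⟨d * g, ⟨d, hd, rfl⟩, ?_, ?_⟩
    · intro i hi l
      show (Matrix.diagonal (fun l => if l = k then x else 1) * (g : Matrix ι ι E)) l i = _
      rw [Matrix.diagonal_mul, hg i hi l]
      by_cases hl : l = k
      · subst hl
        have : l ≠ i := fun h => hk (h ▸ hi)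
        simp [this]
      · simp [hl]
    · show (Matrix.diagonal (fun l => if l = k then x else 1) * (g : Matrix ι ι E)) k k = _
      rw [Matrix.diagonal_mul, if_pos rfl]
      exact h1

/-- clear column `k` -/
lemma step4d (hK : ∀ {j i : ι} (h : j ≠ i) (b : E), el h b ∈ K) (s : Finset ι)
    (g : (Matrix ι ι E)ˣ) (hg : Good s (g : Matrix ι ι E)) (k : ι) (hk : k ∉ s)
    (h1 : (g : Matrix ι ι E) k k = 1) :
    ∃ g' : (Matrix ι ι E)ˣ, Eqv K g g' ∧ Good (insert k s) (g' : Matrix ι ι E) := by
  set m : ι → E := fun l => if l = k then 0 else -(g : Matrix ι ι E) l k with hm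
  have hmk : m k = 0 := by simp [hm]
  refine ⟨uni (cl' k m) (cl'_sq k m m hmk) * g, ⟨_, colop_mem K hK k m hmk, rfl⟩, ?_⟩
  intro i hi l
  rw [Units.val_mul, uni_val, Matrix.add_mul, Matrix.one_mul, Matrix.add_apply, cl'_mul_apply]
  rw [Finset.mem_insert] at hi
  rcases hi with rfl | hi
  · rw [h1, mul_one]
    by_cases hl : l = i
    · subst hl; simp [hm, h1]
    · simp [hm, hl]
  · rw [hg i hi k, hg i hi l, if_neg (fun h : k = i => hk (h ▸ hi)), mul_zero, add_zero]

include D in
lemma step4 (hKM : M D ι ≤ K) (hK : ∀ {j i : ι} (h : j ≠ i) (b : E), el h b ∈ K) : K = ⊤ := by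
  have key : ∀ n : ℕ, ∀ s : Finset ι, (sᶜ).card = n → ∀ g : (Matrix ι ι E)ˣ,
      Good s (g : Matrix ι ι E) → g ∈ K := by
    intro n
    induction n with
    | zero =>
      intro s hs g hg
      have hs' : sᶜ = ∅ := Finset.card_eq_zero.mp hs
      have : g = 1 := by
        ext a b
        have hb : b ∈ s := by
          by_contra h
          have : b ∈ sᶜ := Finset.mem_compl.mpr h
          rw [hs'] at this
          simp at this
        rw [hg b hb a, Units.val_one, Matrix.one_apply]
      rw [this]; exact K.one_mem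
    | succ n ih =>
      intro s hs g hg
      have hne : (sᶜ).Nonempty := by
        rw [← Finset.card_pos, hs]; omega
      obtain ⟨k, hk⟩ := hne
      have hk' : k ∉ s := Finset.mem_compl.mp hk
      obtain ⟨g1, he1, hg1, h1⟩ := step4c D K hKM hK s g hg k hk'
      obtain ⟨g2, he2, hg2⟩ := step4d K hK s g1 hg1 k hk' h1
      have h2 : g2 ∈ K := by
        apply ih (insert k s) _ g2 hg2
        rw [Finset.compl_insert, Finset.card_erase_of_mem hk, hs]; simp
      obtain ⟨h, hh, e⟩ := he1.trans' K he2
      have : g = h⁻¹ * g2 := by rw [e]; group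
      rw [this]
      exact K.mul_mem (K.inv_mem hh) h2
  rw [eq_top_iff]
  intro g _
  exact key _ ∅ rfl g (fun i hi => by simp at hi)

/-- **Main matrix theorem.** -/
theorem isCoatom_M [Nontrivial ι] : IsCoatom (M D ι) := by
  refine ⟨M_ne_top D, fun K hK => ?_⟩
  obtain ⟨hle, g, hgK, hgM⟩ := SetLike.lt_iff_le_and_exists.mp hK
  obtain ⟨j, i, hij, c, hc, hcK⟩ := step2 D K hle g hgK hgM
  have h3 := step3 D K hle hij c hc hcK
  exact step4 D K hle (fun h b => step3' D K hle hij h3 h b)

end Q250.AS
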