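import Pool.Agent.Q250.AS.Ring

/-!
The matrix group: monomial matrices modulo the ideal of small elements form a maximal subgroup.
-/

set_option autoImplicit false

namespace Q250.AS

open Matrix Finset

variable {E : Type*} [Ring E] (D : Data E) {ι : Type*} [Fintype ι] [DecidableEq ι]

/-- the unit `1 + N` for a square-zero element `N` -/
def uni {R : Type*} [Ring R] (N : R) (h : N * N = 0) : Rˣ :=
  ⟨1 + N, 1 - N, by
    calc (1 + N) * (1 - N) = 1 - N * N := by noncomm_ring
      _ = 1 := by rw [h, sub_zero], by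
    calc (1 - N) * (1 + N) = 1 - N * N := by noncomm_ring
      _ = 1 := by rw [h, sub_zero]⟩

@[simp] lemma uni_val {R : Type*} [Ring R] (N : R) (h : N * N = 0) :
    ((uni N h : Rˣ) : R) = 1 + N := rfl

@[simp] lemma uni_inv {R : Type*} [Ring R] (N : R) (h : N * N = 0) :
    (((uni N h)⁻¹ : Rˣ) : R) = 1 - N := rfl

/-- small modulo-monomial matrices, with given permutation -/
def MonoW (σ : Equiv.Perm ι) (g : Matrix ι ι E) : Prop := ∀ i j, j ≠ σ i → g j i ∈ D.I

/-- small modulo-monomial matrices -/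
def Mono (g : Matrix ι ι E) : Prop := ∃ σ : Equiv.Perm ι, MonoW D σ g

lemma MonoW.inv' (g : (Matrix ι ι E)ˣ) (σ : Equiv.Perm ι) (hσ : MonoW D σ (g : Matrix ι ι E)) :
    MonoW D σ⁻¹ ((g⁻¹ : (Matrix ι ι E)ˣ) : Matrix ι ι E) := by
  intro i j hj
  have hij : i ≠ σ j := by
    intro h; apply hj; rw [h]; simp
  have hij' : (1 : Matrix ι ι E) (σ j) i = 0 := Matrix.one_apply_ne (Ne.symm hij)
  have h1 : (g : Matrix ι ι E) * ((g⁻¹ : (Matrix ι ι E)ˣ) : Matrix ι ι E) = 1 := g.mul_inv
  have h2 : ((g⁻¹ : (Matrix ι ι E)ˣ) : Matrix ι ι E) * (g : Matrix ι ι E) = 1 := g.inv_mul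
  set G := (g : Matrix ι ι E)
  set H := ((g⁻¹ : (Matrix ι ι E)ˣ) : Matrix ι ι E)
  have e1 : G (σ j) j * H j i ∈ D.I := by
    have := congrFun (congrFun h1 (σ j)) i
    rw [Matrix.mul_apply, hij', ← Finset.add_sum_erase _ _ (Finset.mem_univ j)] at this
    rw [eq_neg_of_add_eq_zero_left this]
    refine D.I.neg_mem (D.I.sum_mem fun k hk => ?_)
    apply D.mulR
    apply hσ
    intro h
    exact (Finset.ne_of_mem_erase hk) (σ.injective h).symm
  have e2 : 1 - H j (σ j) * G (σ j) j ∈ D.I := by
    have := congrFun (congrFun h2 j) j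
    rw [Matrix.mul_apply, Matrix.one_apply_eq, ← Finset.add_sum_erase _ _ (Finset.mem_univ (σ j))]
      at this
    rw [← this, add_sub_cancel_left]
    refine D.I.sum_mem fun k hk => ?_
    apply D.mulL
    exact hσ _ _ (Finset.ne_of_mem_erase hk)
  have e3 : H j i = (1 - H j (σ j) * G (σ j) j) * H j i + H j (σ j) * (G (σ j) j * H j i) := by
    noncomm_ring
  rw [e3]
  exact D.I.add_mem (D.mulR _ _ e2) (D.mulL _ _ e1)

/-- The subgroup of monomial matrices modulo small elements. -/
def M (ι : Type*) [Fintype ι] [DecidableEq ι] : Subgroup (Matrix ι ι E)ˣ where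
  carrier := {g | Mono D (g : Matrix ι ι E)}
  one_mem' := ⟨1, fun i j h => by
    have : (1 : Matrix ι ι E) j i = 0 := Matrix.one_apply_ne (by simpa using h)
    show (1 : Matrix ι ι E) j i ∈ D.I
    rw [this]; exact D.I.zero_mem⟩
  mul_mem' := by
    rintro g h ⟨σ, hσ⟩ ⟨τ, hτ⟩
    refine ⟨σ * τ, fun i j hj => ?_⟩
    show ((g : Matrix ι ι E) * (h : Matrix ι ι E)) j i ∈ D.I
    rw [Matrix.mul_apply]
    refine D.I.sum_mem fun k _ => ?_
    by_cases hk : k = τ i
    · apply D.mulR
      apply hσ
      rw [hk]; exact hj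
    · exact D.mulL _ _ (hτ _ _ hk)
  inv_mem' := by
    rintro g ⟨σ, hσ⟩
    exact ⟨σ⁻¹, MonoW.inv' D g σ hσ⟩

lemma mem_M (g : (Matrix ι ι E)ˣ) : g ∈ M D ι ↔ Mono D (g : Matrix ι ι E) := Iff.rfl

lemma M_ne_top [Nontrivial ι] : M D ι ≠ ⊤ := by
  intro h
  obtain ⟨i, j, hij⟩ := exists_pair_ne ι
  have hsq : (single j i (1 : E)) * (single j i (1 : E)) = (0 : Matrix ι ι E) :=
    single_mul_single_of_ne _ _ _ _ hij _
  have h1 : uni (single j i (1 : E)) hsq ∈ M D ι := by rw [h]; trivial
  obtain ⟨σ, hσ⟩ := h1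
  have h2 : σ i = i := by
    by_contra hne
    have := hσ i i (Ne.symm hne)
    simp [Matrix.one_apply_eq, hij.symm] at this
    exact D.one this
  have h3 : σ i = j := by
    by_contra hne
    have := hσ i j (Ne.symm hne)
    simp [Matrix.one_apply_ne, hij.symm] at this
    exact D.one this
  exact hij (h2.symm.trans h3)

/-- diagonal units belong to `M` -/
lemma diag_mem (g : (Matrix ι ι E)ˣ) (h : ∀ i j, j ≠ i → (g : Matrix ι ι E) j i = 0) :
    g ∈ M D ι :=
  ⟨1, fun i j hj => by rw [h i j (by simpa using hj)]; exact D.I.zero_mem⟩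

/-- `∀ k, ∃ j` with `g j k` not small. -/
lemma exists_col (g : (Matrix ι ι E)ˣ) (k : ι) : ∃ j, (g : Matrix ι ι E) j k ∉ D.I := by
  by_contra hcon
  push Not at hcon
  have := congrFun (congrFun g.inv_mul k) k
  rw [Matrix.mul_apply, Matrix.one_apply_eq] at this
  apply D.one
  rw [← this]
  exact D.I.sum_mem fun j _ => D.mulL _ _ (hcon j)

lemma exists_row (g : (Matrix ι ι E)ˣ) (k : ι) : ∃ j, (g : Matrix ι ι E) k j ∉ D.I := by
  by_contra hcon
  push Not at hcon
  have := congrFun (congrFun g.mul_inv k) k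
  rw [Matrix.mul_apply, Matrix.one_apply_eq] at this
  apply D.one
  rw [← this]
  exact D.I.sum_mem fun j _ => D.mulR _ _ (hcon j)

lemma step1 (g : (Matrix ι ι E)ˣ) (hg : g ∉ M D ι) :
    ∃ k j i, i ≠ j ∧ (g : Matrix ι ι E) j k ∉ D.I ∧
      ((g⁻¹ : (Matrix ι ι E)ˣ) : Matrix ι ι E) k i ∉ D.I := by
  by_contra hcon
  push Not at hcon
  apply hg
  choose σ hσ using fun k => exists_col D g k
  have h1 : ∀ k i, ((g⁻¹ : (Matrix ι ι E)ˣ) : Matrix ι ι E) k i ∉ D.I → i = σ k := by
    intro k i hi
    by_contra hne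
    exact hi (hcon k (σ k) i hne (hσ k))
  have h2 : ∀ k j, (g : Matrix ι ι E) j k ∉ D.I → j = σ k := by
    intro k j hj
    obtain ⟨i, hi⟩ := exists_row D g⁻¹ k
    have e1 := h1 k i hi
    by_contra hne
    apply hi
    apply hcon k j i _ hj
    rw [e1]; exact Ne.symm hne
  have hsurj : Function.Surjective σ := by
    intro i
    have := congrFun (congrFun g.mul_inv i) i
    rw [Matrix.mul_apply, Matrix.one_apply_eq] at this
    by_contra hne
    push Not at hne
    apply D.one
    rw [← this]
    refine D.I.sum_mem fun k _ => ?_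
    apply D.mulR
    by_contra hk
    exact hne k (h2 k i hk).symm
  have hbij : Function.Bijective σ := Finite.injective_iff_bijective.mp
    (Finite.injective_iff_surjective.mpr hsurj)
  refine ⟨Equiv.ofBijective σ hbij, fun i j hj => ?_⟩
  by_contra hmem
  exact hj (h2 i j hmem)

/-- commutator identity -/
lemma comm1 {R : Type*} [Ring R] (A B : R) (hA : A * A = 0) (hB : B * B = 0) (hBA : B * A = 0) :
    ((uni A hA * uni B hB * (uni A hA)⁻¹ * (uni B hB)⁻¹ : Rˣ) : R) = 1 + A * B := by
  simp only [Units.val_mul, uni_val, uni_inv]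
  calc (1 + A) * (1 + B) * (1 - A) * (1 - B)
      = 1 + A * B - (A * A) - B * B - B * A - A * (B * B) - A * (B * A) + A * A * B
        + B * A * B + A * (B * A) * B := by noncomm_ring
    _ = 1 + A * B := by rw [hA, hB, hBA]; simp

/-- a conjugation identity -/
lemma conj1 {R : Type*} [Ring R] (A C : R) (hA : A * A = 0) (hC : C * C = 0) (hCA : C * A = 0) :
    ((uni A hA * uni C hC * (uni A hA)⁻¹ : Rˣ) : R) = 1 + (C + A * C) := by
  simp only [Units.val_mul, uni_val, uni_inv]
  calc (1 + A) * (1 + C) * (1 - A)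
      = 1 + (C + A * C) - A * A - C * A - A * (C * A) := by noncomm_ring
    _ = _ := by rw [hA, hCA]; simp

lemma conj2 {R : Type*} [Ring R] (A C : R) (hA : A * A = 0) (hC : C * C = 0) (hAC : A * C = 0) :
    ((uni A hA * uni C hC * (uni A hA)⁻¹ : Rˣ) : R) = 1 + (C - C * A) := by
  simp only [Units.val_mul, uni_val, uni_inv]
  calc (1 + A) * (1 + C) * (1 - A)
      = 1 + (C - C * A) - A * A + A * C - (A * C) * A := by noncomm_ring
    _ = _ := by rw [hA, hAC]; simp

lemma ssq {i j : ι} (h : i ≠ j) (c : E) :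
    single i j c * single i j c = (0 : Matrix ι ι E) :=
  single_mul_single_of_ne _ _ _ _ (Ne.symm h) _

/-- elementary transvection -/
def el {i j : ι} (h : i ≠ j) (c : E) : (Matrix ι ι E)ˣ := uni (single i j c) (ssq h c)

lemma dsq (i : ι) {n : E} (hn : n * n = 0) :
    single i i n * single i i n = (0 : Matrix ι ι E) := by
  rw [single_mul_single_same, hn]; simp

variable (K : Subgroup (Matrix ι ι E)ˣ)

lemma diag_uni_mem (hK : M D ι ≤ K) (i : ι) {n : E} (hn : n * n = 0) :
    uni (single i i n) (dsq i hn) ∈ K := by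
  apply hK
  apply diag_mem
  intro a b hab
  rw [uni_val, Matrix.add_apply, Matrix.one_apply_ne hab, Matrix.single_apply, zero_add]
  apply if_neg
  rintro ⟨rfl, rfl⟩
  exact hab rfl

lemma step2 (hK : M D ι ≤ K) (g : (Matrix ι ι E)ˣ) (hgK : g ∈ K) (hg : g ∉ M D ι) :
    ∃ (j i : ι) (hij : j ≠ i) (c : E), c ∉ D.I ∧ el hij c ∈ K := by
  obtain ⟨k, j, i, hij, hB, hA⟩ := step1 D g hg
  set G := (g : Matrix ι ι E) with hG
  set H := ((g⁻¹ : (Matrix ι ι E)ˣ) : Matrix ι ι E) with hH
  obtain ⟨ρ, ν, δ, hρ, hν, hδ, h0, hc⟩ := D.choose3 (H k i) (G j k) (H k j) hA hB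
  have hHG : H * G = 1 := g.inv_mul
  set N : Matrix ι ι E := G * single k k ν * H with hN
  have hNN : N * N = 0 := by
    calc N * N = G * (single k k ν * (H * G) * single k k ν) * H := by
          rw [hN]; noncomm_ring
      _ = G * (single k k ν * single k k ν) * H := by rw [hHG, mul_one]
      _ = 0 := by rw [dsq k hν]; simp
  have hND : N * single j j δ = 0 := by
    have : single k k ν * H * single j j δ = (0 : Matrix ι ι E) := by
      rw [single_mul_mul_single, h0]; simp
    calc N * single j j δ = G * (single k k ν * H * single j j δ) := by rw [hN]; noncomm_ring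
      _ = 0 := by rw [this]; simp
  have hNK : uni N hNN ∈ K := by
    have : uni N hNN = g * uni (single k k ν) (dsq k hν) * g⁻¹ := by
      ext1
      simp only [uni_val, Units.val_mul]
      rw [← hG, ← hH]
      have hGH : G * H = 1 := g.mul_inv
      calc 1 + N = G * H + N := by rw [hGH]
        _ = G * (1 + single k k ν) * H := by rw [hN]; noncomm_ring
    rw [this]
    exact K.mul_mem (K.mul_mem hgK (diag_uni_mem D K hK k hν)) (K.inv_mem hgK)
  have hc1 := comm1 _ _ (dsq j hδ) hNN hND
  have hc1K : uni (single j j δ) (dsq j hδ) * uni N hNN * (uni (single j j δ) (dsq j hδ))⁻¹ *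
      (uni N hNN)⁻¹ ∈ K :=
    K.mul_mem (K.mul_mem (K.mul_mem (diag_uni_mem D K hK j hδ) hNK)
      (K.inv_mem (diag_uni_mem D K hK j hδ))) (K.inv_mem hNK)
  set A : Matrix ι ι E := single j j δ * N with hAdef
  have hAA : A * A = 0 := by
    calc A * A = single j j δ * (N * single j j δ) * N := by rw [hAdef]; noncomm_ring
      _ = 0 := by rw [hND]; simp
  have hAK : uni A hAA ∈ K := by
    have : uni A hAA = uni (single j j δ) (dsq j hδ) * uni N hNN *
      (uni (single j j δ) (dsq j hδ))⁻¹ * (uni N hNN)⁻¹ := by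
      ext1
      rw [hc1, uni_val]
    rw [this]; exact hc1K
  have hPA : single i i ρ * A = 0 := by
    rw [hAdef, ← mul_assoc, single_mul_single_of_ne _ _ _ _ hij, zero_mul]
  have hc2 := comm1 A (single i i ρ) hAA (dsq i hρ) hPA
  have hAP : A * single i i ρ = single j i (δ * G j k * ν * H k i * ρ) := by
    have e1 : single j j δ * G * single k k ν = single j k (δ * G j k * ν) :=
      single_mul_mul_single _ _ _ _ _ _ _
    calc A * single i i ρ = (single j j δ * G * single k k ν) * H * single i i ρ := by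
          rw [hAdef, hN]; noncomm_ring
      _ = _ := by rw [e1, single_mul_mul_single]
  refine ⟨j, i, hij.symm, _, hc, ?_⟩
  have : el hij.symm (δ * G j k * ν * H k i * ρ) = uni A hAA * uni (single i i ρ) (dsq i hρ) *
      (uni A hAA)⁻¹ * (uni (single i i ρ) (dsq i hρ))⁻¹ := by
    ext1
    rw [hc2, hAP]; rfl
  rw [this]
  exact K.mul_mem (K.mul_mem (K.mul_mem hAK (diag_uni_mem D K hK i hρ))
    (K.inv_mem hAK)) (K.inv_mem (diag_uni_mem D K hK i hρ))

/-- the additive group of all `c` with the transvection in `K` -/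
def T {i j : ι} (h : i ≠ j) : AddSubgroup E where
  carrier := {c | el h c ∈ K}
  zero_mem' := by
    have : el h (0 : E) = (1 : (Matrix ι ι E)ˣ) := by
      ext1; simp [el]
    show el h (0 : E) ∈ K
    rw [this]; exact K.one_mem
  add_mem' := by
    intro a b ha hb
    have : el h (a + b) = (el h a * el h b : (Matrix ι ι E)ˣ) := by
      ext1
      simp only [el, uni_val, Units.val_mul]
      calc 1 + single i j (a + b) = 1 + single i j a + single i j b + 0 := by
            rw [single_add]; abel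
        _ = 1 + single i j a + single i j b + single i j a * single i j b := by
            rw [single_mul_single_of_ne _ _ _ _ (Ne.symm h)]
        _ = _ := by noncomm_ring
    show el h (a + b) ∈ K
    rw [this]; exact K.mul_mem ha hb
  neg_mem' := by
    intro a ha
    have : el h (-a) = ((el h a)⁻¹ : (Matrix ι ι E)ˣ) := by
      ext1
      simp only [el, uni_val, uni_inv]
      rw [← single_neg]; abel
    show el h (-a) ∈ K
    rw [this]; exact K.inv_mem ha

lemma mem_T {i j : ι} (h : i ≠ j) (c : E) : c ∈ T K h ↔ el h c ∈ K := Iff.rfl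

include D in
lemma step3 (hK : M D ι ≤ K) {j i : ι} (h : j ≠ i) (c : E) (hc : c ∉ D.I) (hcK : el h c ∈ K) :
    ∀ b, el h b ∈ K := by
  have hL : ∀ n c : E, n * n = 0 → c ∈ T K h → n * c ∈ T K h := by
    intro n c hn hc
    have hz : single j i c * single j j n = (0 : Matrix ι ι E) :=
      single_mul_single_of_ne _ _ _ _ (Ne.symm h) _
    have e := conj1 (single j j n) (single j i c) (dsq j hn) (ssq h c) hz
    have e2 : el h (c + n * c) = uni (single j j n) (dsq j hn) * uni (single j i c) (ssq h c) *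
        (uni (single j j n) (dsq j hn))⁻¹ := by
      ext1
      rw [e, single_mul_single_same, ← single_add]
      rfl
    have e3 : c + n * c ∈ T K h := by
      rw [mem_T, e2]
      exact K.mul_mem (K.mul_mem (diag_uni_mem D K hK j hn) hc)
        (K.inv_mem (diag_uni_mem D K hK j hn))
    have := (T K h).sub_mem e3 hc
    rwa [add_sub_cancel_left] at this
  have hR : ∀ n c : E, n * n = 0 → c ∈ T K h → c * n ∈ T K h := by
    intro n c hn hc
    have hz : single i i n * single j i c = (0 : Matrix ι ι E) :=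
      single_mul_single_of_ne _ _ _ _ (Ne.symm h) _
    have e := conj2 (single i i n) (single j i c) (dsq i hn) (ssq h c) hz
    have e2 : el h (c - c * n) = uni (single i i n) (dsq i hn) * uni (single j i c) (ssq h c) *
        (uni (single i i n) (dsq i hn))⁻¹ := by
      have hs : (single j i (c - c * n) : Matrix ι ι E) = single j i c - single j i (c * n) := by
        rw [sub_eq_add_neg, single_add, ← single_neg, ← sub_eq_add_neg]
      ext1
      rw [e, single_mul_single_same, ← hs]
      rfl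
    have e3 : c - c * n ∈ T K h := by
      rw [mem_T, e2]
      exact K.mul_mem (K.mul_mem (diag_uni_mem D K hK i hn) hc)
        (K.inv_mem (diag_uni_mem D K hK i hn))
    have := (T K h).sub_mem hc e3
    rwa [sub_sub_cancel] at this
  have hL' := D.stableL (T K h) hL
  have hR' := D.stableR (T K h) hR
  obtain ⟨x, y, hxy⟩ := D.P1 c hc
  intro b
  have h1 : (1 : E) ∈ T K h := by
    rw [← hxy]
    exact hR' _ _ (hL' _ _ hcK)
  have := hL' b 1 h1
  rwa [mul_one] at this

/-- permutation matrices -/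
def pm (σ : Equiv.Perm ι) : (Matrix ι ι E)ˣ where
  val := Matrix.of fun a b => if a = σ b then 1 else 0
  inv := Matrix.of fun a b => if a = σ⁻¹ b then 1 else 0
  val_inv := by
    ext a b
    simp only [Matrix.mul_apply, Matrix.of_apply, Matrix.one_apply]
    simp
  inv_val := by
    ext a b
    simp only [Matrix.mul_apply, Matrix.of_apply, Matrix.one_apply]
    simp

lemma pm_mem (σ : Equiv.Perm ι) : (pm σ : (Matrix ι ι E)ˣ) ∈ M D ι := by
  refine ⟨σ, fun i j hj => ?_⟩
  show (if j = σ i then (1 : E) else 0) ∈ D.I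
  rw [if_neg hj]; exact D.I.zero_mem

lemma pm_conj (σ : Equiv.Perm ι) {j i : ι} (h : j ≠ i) (h' : σ j ≠ σ i) (c : E) :
    (pm σ * el h c * (pm σ)⁻¹ : (Matrix ι ι E)ˣ) = el h' c := by
  have key : (pm σ * el h c : (Matrix ι ι E)ˣ) = el h' c * pm σ := by
    ext a b
    simp only [Units.val_mul, pm, el, uni_val, Matrix.mul_add, Matrix.add_mul, Matrix.mul_one,
      Matrix.one_mul, Matrix.add_apply]
    congr 1
    simp only [Matrix.mul_apply, Matrix.of_apply, Matrix.single_apply]
    rw [Finset.sum_eq_single j, Finset.sum_eq_single (σ i)]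
    · by_cases h1 : a = σ j <;> by_cases h2 : b = i
      · subst h1; subst h2; simp
      · subst h1
        have : σ i ≠ σ b := fun h => h2 (σ.injective h).symm
        simp [this, Ne.symm h2]
      · subst h2
        simp [h1, Ne.symm h1]
      · simp [h1, Ne.symm h1]
    · intro x _ hx
      simp [Ne.symm hx]
    · simp
    · intro x _ hx
      simp [Ne.symm hx]
    · simp
  rw [key]
  group

include D in
lemma step3' (hK : M D ι ≤ K) {j i : ι} (h : j ≠ i) (hb : ∀ b, el h b ∈ K) :
    ∀ {j' i' : ι} (h' : j' ≠ i') (b : E), el h' b ∈ K := by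
  intro j' i' h' b
  -- a permutation with `σ j = j'`, `σ i = i'`
  obtain ⟨σ, hσj, hσi⟩ : ∃ σ : Equiv.Perm ι, σ j = j' ∧ σ i = i' := by
    refine ⟨Equiv.swap (Equiv.swap j j' i) i' * Equiv.swap j j', ?_, ?_⟩
    · rw [Equiv.Perm.mul_apply, Equiv.swap_apply_left]
      apply Equiv.swap_apply_of_ne_of_ne
      · intro h1
        apply h
        have : Equiv.swap j j' j = Equiv.swap j j' i := by
          rw [Equiv.swap_apply_left]; exact h1
        exact (Equiv.swap j j').injective this
      · exact h'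
    · rw [Equiv.Perm.mul_apply, Equiv.swap_apply_left]
  subst hσj
  subst hσi
  rw [← pm_conj σ h h' b]
  have hp : (pm σ : (Matrix ι ι E)ˣ) ∈ K := hK (pm_mem D σ)
  exact K.mul_mem (K.mul_mem hp (hb b)) (K.inv_mem hp)

end Q250.AS
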