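import Mathlib

/-!
Ring theoretic core for the maximality of almost stabilisers.
-/

set_option autoImplicit false

namespace Q250.AS

open Matrix

/-- Abstract properties of the endomorphism ring of an infinite dimensional space, with `I` the
ideal of maps of small rank. -/
structure Data (E : Type*) [Ring E] where
  I : AddSubgroup E
  mulL : ∀ a b, b ∈ I → a * b ∈ I
  mulR : ∀ a b, a ∈ I → a * b ∈ I
  one : (1 : E) ∉ I
  s1 : E
  s2 : E
  t1 : E
  t2 : E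
  t1s1 : t1 * s1 = 1
  t2s2 : t2 * s2 = 1
  t1s2 : t1 * s2 = 0
  t2s1 : t2 * s1 = 0
  sum : s1 * t1 + s2 * t2 = 1
  P1 : ∀ a, a ∉ I → ∃ x y, x * a * y = 1
  P3 : ∀ z, z ∈ I → ∃ b b', b' * b = 1 ∧ z * b = 0

variable {E : Type*} [Ring E] (D : Data E)

include D

/-- general position -/
lemma Data.gp (z : E) : ∃ a a' b b' : E, a' * a = 1 ∧ b' * b = 1 ∧ a' * z * b = 0 := by
  by_cases h : z ∈ D.I
  · obtain ⟨b, b', h1, h2⟩ := D.P3 z h
    exact ⟨1, 1, b, b', by simp, h1, by rw [one_mul, h2]⟩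
  · obtain ⟨x, y, hxy⟩ := D.P1 z h
    refine ⟨z * y * D.s2, D.t2 * x, y * D.s1, D.t1 * x * z, ?_, ?_, ?_⟩
    · calc D.t2 * x * (z * y * D.s2) = D.t2 * (x * z * y) * D.s2 := by noncomm_ring
        _ = 1 := by rw [hxy, mul_one, D.t2s2]
    · calc D.t1 * x * z * (y * D.s1) = D.t1 * (x * z * y) * D.s1 := by noncomm_ring
        _ = 1 := by rw [hxy, mul_one, D.t1s1]
    · calc D.t2 * x * z * (y * D.s1) = D.t2 * (x * z * y) * D.s1 := by noncomm_ring
        _ = 0 := by rw [hxy, mul_one, D.t2s1]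

/-- The choice of three square-zero elements. -/
lemma Data.choose3 (A B C : E) (hA : A ∉ D.I) (hB : B ∉ D.I) :
    ∃ ρ ν δ : E, ρ * ρ = 0 ∧ ν * ν = 0 ∧ δ * δ = 0 ∧ ν * C * δ = 0 ∧
      δ * B * ν * A * ρ ∉ D.I := by
  obtain ⟨x', x, hx⟩ := D.P1 A hA
  obtain ⟨y', y, hy⟩ := D.P1 B hB
  obtain ⟨a, a', f, e, ha, hef, h1⟩ := D.gp (x' * y * D.s1)
  obtain ⟨c, c', d, d', hc, hd, h2⟩ := D.gp (a' * (x' * C * B * y * D.s2))
  -- h = t1 c' a', k = a c s1, ℓ = t2 c' a'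
  -- ρ = x k ℓ x' A ; ν = (y s1 f) (h x') ; δ = (B y s2 d) (e t1 y')
  have hca : c' * a' * (a * c) = 1 := by
    calc c' * a' * (a * c) = c' * (a' * a) * c := by noncomm_ring
      _ = 1 := by rw [ha, mul_one, hc]
  set ρ1 := x * (a * c * D.s1) with hρ1
  set ρ2 := (D.t2 * (c' * a')) * (x' * A) with hρ2
  set ν1 := y * D.s1 * f with hν1
  set ν2 := (D.t1 * (c' * a')) * x' with hν2
  set δ1 := B * y * D.s2 * d with hδ1
  set δ2 := e * D.t1 * y' with hδ2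
  have i1 : δ2 * B * ν1 = 1 := by
    calc δ2 * B * ν1 = e * D.t1 * (y' * B * y) * D.s1 * f := by
          rw [hδ2, hν1]; noncomm_ring
      _ = e * (D.t1 * D.s1) * f := by rw [hy]; noncomm_ring
      _ = 1 := by rw [D.t1s1, mul_one, hef]
  have i2 : δ2 * δ1 = 0 := by
    calc δ2 * δ1 = e * D.t1 * (y' * B * y) * D.s2 * d := by
          rw [hδ2, hδ1]; noncomm_ring
      _ = e * (D.t1 * D.s2) * d := by rw [hy]; noncomm_ring
      _ = 0 := by rw [D.t1s2]; noncomm_ring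
  have i3 : ν2 * A * ρ1 = 1 := by
    calc ν2 * A * ρ1 = D.t1 * (c' * a') * (x' * A * x) * (a * c) * D.s1 := by
          rw [hν2, hρ1]; noncomm_ring
      _ = D.t1 * (c' * a' * (a * c)) * D.s1 := by rw [hx]; noncomm_ring
      _ = 1 := by rw [hca, mul_one, D.t1s1]
  have i4 : ν2 * ν1 = 0 := by
    calc ν2 * ν1 = D.t1 * c' * (a' * (x' * y * D.s1) * f) := by
          rw [hν2, hν1]; noncomm_ring
      _ = 0 := by rw [h1, mul_zero]
  have i5 : ν2 * C * δ1 = 0 := by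
    calc ν2 * C * δ1 = D.t1 * (c' * (a' * (x' * C * B * y * D.s2)) * d) := by
          rw [hν2, hδ1]; noncomm_ring
      _ = 0 := by rw [h2, mul_zero]
  have i6 : ρ2 * ρ1 = 0 := by
    calc ρ2 * ρ1 = D.t2 * (c' * a') * (x' * A * x) * (a * c) * D.s1 := by
          rw [hρ2, hρ1]; noncomm_ring
      _ = D.t2 * (c' * a' * (a * c)) * D.s1 := by rw [hx]; noncomm_ring
      _ = 0 := by rw [hca, mul_one, D.t2s1]
  -- δ1 is left invertible: L = d' t2 y'
  have i7 : d' * D.t2 * y' * δ1 = 1 := by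
    calc d' * D.t2 * y' * δ1 = d' * D.t2 * (y' * B * y) * D.s2 * d := by
          rw [hδ1]; noncomm_ring
      _ = d' * (D.t2 * D.s2) * d := by rw [hy]; noncomm_ring
      _ = 1 := by rw [D.t2s2, mul_one, hd]
  -- ρ2 is right invertible: x a c s2
  have i8 : ρ2 * (x * (a * c) * D.s2) = 1 := by
    calc ρ2 * (x * (a * c) * D.s2) = D.t2 * (c' * a') * (x' * A * x) * (a * c) * D.s2 := by
          rw [hρ2]; noncomm_ring
      _ = D.t2 * (c' * a' * (a * c)) * D.s2 := by rw [hx]; noncomm_ring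
      _ = 1 := by rw [hca, mul_one, D.t2s2]
  refine ⟨ρ1 * ρ2, ν1 * ν2, δ1 * δ2, ?_, ?_, ?_, ?_, ?_⟩
  · calc ρ1 * ρ2 * (ρ1 * ρ2) = ρ1 * (ρ2 * ρ1) * ρ2 := by noncomm_ring
      _ = 0 := by rw [i6]; simp
  · calc ν1 * ν2 * (ν1 * ν2) = ν1 * (ν2 * ν1) * ν2 := by noncomm_ring
      _ = 0 := by rw [i4]; simp
  · calc δ1 * δ2 * (δ1 * δ2) = δ1 * (δ2 * δ1) * δ2 := by noncomm_ring
      _ = 0 := by rw [i2]; simp
  · calc ν1 * ν2 * C * (δ1 * δ2) = ν1 * (ν2 * C * δ1) * δ2 := by noncomm_ring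
      _ = 0 := by rw [i5]; simp
  · intro hmem
    have e1 : δ1 * δ2 * B * (ν1 * ν2) * A * (ρ1 * ρ2) = δ1 * ρ2 := by
      calc δ1 * δ2 * B * (ν1 * ν2) * A * (ρ1 * ρ2)
          = δ1 * (δ2 * B * ν1) * (ν2 * A * ρ1) * ρ2 := by noncomm_ring
        _ = δ1 * ρ2 := by rw [i1, i3]; simp
    rw [e1] at hmem
    have h3 := D.mulR _ (x * (a * c) * D.s2) (D.mulL (d' * D.t2 * y') _ hmem)
    have e2 : d' * D.t2 * y' * (δ1 * ρ2) * (x * (a * c) * D.s2) = 1 := by
      calc d' * D.t2 * y' * (δ1 * ρ2) * (x * (a * c) * D.s2)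
          = (d' * D.t2 * y' * δ1) * (ρ2 * (x * (a * c) * D.s2)) := by noncomm_ring
        _ = 1 := by rw [i7, i8, mul_one]
    rw [e2] at h3
    exact D.one h3

/-- An additive subgroup stable under left multiplication by square-zero elements is stable under
left multiplication by everything. -/
lemma Data.stableL (T : AddSubgroup E) (hT : ∀ n c : E, n * n = 0 → c ∈ T → n * c ∈ T) :
    ∀ m c : E, c ∈ T → m * c ∈ T := by
  intro m c hc
  have q12 : ∀ y c : E, c ∈ T → (D.s1 * y * D.t2) * c ∈ T := by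
    intro y c hc
    refine hT _ _ ?_ hc
    calc D.s1 * y * D.t2 * (D.s1 * y * D.t2) = D.s1 * y * (D.t2 * D.s1) * y * D.t2 := by
          noncomm_ring
      _ = 0 := by rw [D.t2s1]; simp
  have q21 : ∀ y c : E, c ∈ T → (D.s2 * y * D.t1) * c ∈ T := by
    intro y c hc
    refine hT _ _ ?_ hc
    calc D.s2 * y * D.t1 * (D.s2 * y * D.t1) = D.s2 * y * (D.t1 * D.s2) * y * D.t1 := by
          noncomm_ring
      _ = 0 := by rw [D.t1s2]; simp
  have q11 : ∀ y c : E, c ∈ T → (D.s1 * y * D.t1) * c ∈ T := by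
    intro y c hc
    have := q12 y _ (q21 1 c hc)
    have e : D.s1 * y * D.t2 * (D.s2 * 1 * D.t1 * c) = D.s1 * y * D.t1 * c := by
      calc D.s1 * y * D.t2 * (D.s2 * 1 * D.t1 * c)
          = D.s1 * y * (D.t2 * D.s2) * D.t1 * c := by noncomm_ring
        _ = _ := by rw [D.t2s2, mul_one]
    rwa [e] at this
  have q22 : ∀ y c : E, c ∈ T → (D.s2 * y * D.t2) * c ∈ T := by
    intro y c hc
    have := q21 y _ (q12 1 c hc)
    have e : D.s2 * y * D.t1 * (D.s1 * 1 * D.t2 * c) = D.s2 * y * D.t2 * c := by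
      calc D.s2 * y * D.t1 * (D.s1 * 1 * D.t2 * c)
          = D.s2 * y * (D.t1 * D.s1) * D.t2 * c := by noncomm_ring
        _ = _ := by rw [D.t1s1, mul_one]
    rwa [e] at this
  have e : m * c = (D.s1 * (D.t1 * m * D.s1) * D.t1) * c + (D.s1 * (D.t1 * m * D.s2) * D.t2) * c
      + ((D.s2 * (D.t2 * m * D.s1) * D.t1) * c + (D.s2 * (D.t2 * m * D.s2) * D.t2) * c) := by
    calc m * c = (D.s1 * D.t1 + D.s2 * D.t2) * m * (D.s1 * D.t1 + D.s2 * D.t2) * c := by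
          rw [D.sum]; simp
      _ = _ := by noncomm_ring
  rw [e]
  exact T.add_mem (T.add_mem (q11 _ _ hc) (q12 _ _ hc)) (T.add_mem (q21 _ _ hc) (q22 _ _ hc))

/-- The same on the right. -/
lemma Data.stableR (T : AddSubgroup E) (hT : ∀ n c : E, n * n = 0 → c ∈ T → c * n ∈ T) :
    ∀ m c : E, c ∈ T → c * m ∈ T := by
  intro m c hc
  have q12 : ∀ y c : E, c ∈ T → c * (D.s1 * y * D.t2) ∈ T := by
    intro y c hc
    refine hT _ _ ?_ hc
    calc D.s1 * y * D.t2 * (D.s1 * y * D.t2) = D.s1 * y * (D.t2 * D.s1) * y * D.t2 := by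
          noncomm_ring
      _ = 0 := by rw [D.t2s1]; simp
  have q21 : ∀ y c : E, c ∈ T → c * (D.s2 * y * D.t1) ∈ T := by
    intro y c hc
    refine hT _ _ ?_ hc
    calc D.s2 * y * D.t1 * (D.s2 * y * D.t1) = D.s2 * y * (D.t1 * D.s2) * y * D.t1 := by
          noncomm_ring
      _ = 0 := by rw [D.t1s2]; simp
  have q11 : ∀ y c : E, c ∈ T → c * (D.s1 * y * D.t1) ∈ T := by
    intro y c hc
    have := q21 1 _ (q12 y c hc)
    have e : c * (D.s1 * y * D.t2) * (D.s2 * 1 * D.t1) = c * (D.s1 * y * D.t1) := by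
      calc c * (D.s1 * y * D.t2) * (D.s2 * 1 * D.t1)
          = c * D.s1 * y * (D.t2 * D.s2) * D.t1 := by noncomm_ring
        _ = _ := by rw [D.t2s2]; noncomm_ring
    rwa [e] at this
  have q22 : ∀ y c : E, c ∈ T → c * (D.s2 * y * D.t2) ∈ T := by
    intro y c hc
    have := q12 1 _ (q21 y c hc)
    have e : c * (D.s2 * y * D.t1) * (D.s1 * 1 * D.t2) = c * (D.s2 * y * D.t2) := by
      calc c * (D.s2 * y * D.t1) * (D.s1 * 1 * D.t2)
          = c * D.s2 * y * (D.t1 * D.s1) * D.t2 := by noncomm_ring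
        _ = _ := by rw [D.t1s1]; noncomm_ring
    rwa [e] at this
  have e : c * m = c * (D.s1 * (D.t1 * m * D.s1) * D.t1) + c * (D.s1 * (D.t1 * m * D.s2) * D.t2)
      + (c * (D.s2 * (D.t2 * m * D.s1) * D.t1) + c * (D.s2 * (D.t2 * m * D.s2) * D.t2)) := by
    calc c * m = c * ((D.s1 * D.t1 + D.s2 * D.t2) * m * (D.s1 * D.t1 + D.s2 * D.t2)) := by
          rw [D.sum]; simp
      _ = _ := by noncomm_ring
  rw [e]
  exact T.add_mem (T.add_mem (q11 _ _ hc) (q12 _ _ hc)) (T.add_mem (q21 _ _ hc) (q22 _ _ hc))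

end Q250.AS
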