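import Pool.Agent.Q250.AS.Gen

/-!
From vector spaces to matrices.
-/

set_option autoImplicit false

namespace Q250.AS

open Cardinal

universe u v

variable {F : Type u} [Field F]

theorem exists_data (U : Type v) [AddCommGroup U] [Module F U] (h : ℵ₀ ≤ Module.rank F U) :
    ∃ D : Data (Module.End F U), ∀ f : Module.End F U,
      f ∈ D.I ↔ LinearMap.rank (f : U →ₗ[F] U) < Module.rank F U := by
  have hpos : (0 : Cardinal.{v}) < Module.rank F U := lt_of_lt_of_le aleph0_pos h
  let I : AddSubgroup (Module.End F U) :=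
    { carrier := {f | LinearMap.rank (f : U →ₗ[F] U) < Module.rank F U}
      zero_mem' := by
        show LinearMap.rank (0 : U →ₗ[F] U) < Module.rank F U
        rw [LinearMap.rank_zero]; exact hpos
      add_mem' := by
        intro a b ha hb
        exact lt_of_le_of_lt (LinearMap.rank_add_le _ _) (add_lt_of_lt h ha hb)
      neg_mem' := by
        intro a ha
        show LinearMap.rank (-a : U →ₗ[F] U) < Module.rank F U
        have : LinearMap.rank (-a : U →ₗ[F] U) = LinearMap.rank (a : U →ₗ[F] U) := by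
          unfold LinearMap.rank
          rw [LinearMap.range_neg]
        rw [this]; exact ha }
  have hsum : Module.rank F (U × U) = Module.rank F U := by
    rw [rank_prod']
    exact Cardinal.add_eq_self h
  obtain ⟨e⟩ := nonempty_linearEquiv_of_rank_eq hsum
  -- `e : U × U ≃ U`
  refine ⟨{ I := I
            mulL := ?_
            mulR := ?_
            one := ?_
            s1 := e.toLinearMap ∘ₗ LinearMap.inl F U U
            s2 := e.toLinearMap ∘ₗ LinearMap.inr F U U
            t1 := LinearMap.fst F U U ∘ₗ e.symm.toLinearMap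
            t2 := LinearMap.snd F U U ∘ₗ e.symm.toLinearMap
            t1s1 := ?_
            t2s2 := ?_
            t1s2 := ?_
            t2s1 := ?_
            sum := ?_
            P1 := ?_
            P3 := ?_ }, fun f => Iff.rfl⟩
  · intro a b hb
    exact lt_of_le_of_lt (LinearMap.rank_comp_le_right _ _) hb
  · intro a b ha
    exact lt_of_le_of_lt (LinearMap.rank_comp_le_left _ _) ha
  · intro h1
    have h1' : LinearMap.rank (LinearMap.id : U →ₗ[F] U) < Module.rank F U := h1
    unfold LinearMap.rank at h1'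
    rw [LinearMap.range_id, rank_top] at h1'
    exact lt_irrefl _ h1'
  · ext x; simp
  · ext x; simp
  · ext x; simp
  · ext x; simp
  · ext x
    simp only [LinearMap.add_apply, Module.End.mul_apply, LinearMap.comp_apply,
      LinearEquiv.coe_coe, LinearMap.inl_apply, LinearMap.inr_apply, LinearMap.fst_apply,
      LinearMap.snd_apply, Module.End.one_apply]
    rw [← map_add]
    simp
  · intro a ha
    have ha1 : Module.rank F U ≤ LinearMap.rank (a : U →ₗ[F] U) := not_lt.mp ha
    have ha2 : Module.rank F U = Module.rank F (LinearMap.range a) :=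
      le_antisymm ha1 (LinearMap.rank_le_domain _)
    obtain ⟨e'⟩ := nonempty_linearEquiv_of_rank_eq ha2
    obtain ⟨r, hr⟩ := (a.rangeRestrict).exists_rightInverse_of_surjective
      (LinearMap.range_rangeRestrict a)
    obtain ⟨x, hx⟩ := ((LinearMap.range a).subtype ∘ₗ
      e'.toLinearMap).exists_leftInverse_of_injective (by
        rw [LinearMap.ker_eq_bot]
        exact (Submodule.subtype_injective _).comp e'.injective)
    refine ⟨x, r ∘ₗ e'.toLinearMap, ?_⟩
    ext u
    have h1 : a (r (e' u)) = (e' u : U) := by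
      have := LinearMap.congr_fun hr (e' u)
      have := congrArg Subtype.val this
      simpa using this
    have h2 := LinearMap.congr_fun hx u
    simp only [Module.End.mul_apply, LinearMap.comp_apply, LinearEquiv.coe_coe,
      Module.End.one_apply]
    rw [h1]
    simpa using h2
  · intro z hz
    have hz' : LinearMap.rank (z : U →ₗ[F] U) < Module.rank F U := hz
    have h1 : Module.rank F (LinearMap.range z) + Module.rank F (LinearMap.ker z)
        = Module.rank F U := LinearMap.rank_range_add_rank_ker z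
    have h2 : Module.rank F U = Module.rank F (LinearMap.ker z) := by
      apply le_antisymm
      · by_contra hlt
        push Not at hlt
        have := add_lt_of_lt h hz' hlt
        unfold LinearMap.rank at this
        rw [h1] at this
        exact lt_irrefl _ this
      · exact Submodule.rank_le _
    obtain ⟨e'⟩ := nonempty_linearEquiv_of_rank_eq h2
    obtain ⟨x, hx⟩ := ((LinearMap.ker z).subtype ∘ₗ
      e'.toLinearMap).exists_leftInverse_of_injective (by
        rw [LinearMap.ker_eq_bot]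
        exact (Submodule.subtype_injective _).comp e'.injective)
    refine ⟨(LinearMap.ker z).subtype ∘ₗ e'.toLinearMap, x, hx, ?_⟩
    ext u
    simp only [Module.End.mul_apply, LinearMap.comp_apply, LinearEquiv.coe_coe,
      LinearMap.zero_apply, Submodule.subtype_apply]
    exact (e' u).2

variable {V : Type v} [AddCommGroup V] [Module F V]

/-- `U =_κ W`: the codimensions of `U` and of `W` in `U + W` add up to less than `κ`. -/
def AlmostEq (κ : Cardinal.{v}) (A B : Submodule F V) : Prop :=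
  Module.rank F (↥(A ⊔ B) ⧸ A.submoduleOf (A ⊔ B)) +
    Module.rank F (↥(A ⊔ B) ⧸ B.submoduleOf (A ⊔ B)) < κ

lemma rank_quot (B C : Submodule F V) :
    Module.rank F (↥C ⧸ B.submoduleOf C) = Module.rank F (C.map B.mkQ) := by
  let f : C →ₗ[F] V ⧸ B := B.mkQ ∘ₗ C.subtype
  have hk : LinearMap.ker f = B.submoduleOf C := by
    ext x
    simp [f, Submodule.submoduleOf]
  have hr : LinearMap.range f = C.map B.mkQ := by
    rw [LinearMap.range_comp, Submodule.range_subtype]
  rw [← hk, ← hr]
  exact (f.quotKerEquivRange).rank_eq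

lemma rank_quot_left (A B : Submodule F V) :
    Module.rank F (↥(A ⊔ B) ⧸ A.submoduleOf (A ⊔ B)) = Module.rank F (B.map A.mkQ) := by
  rw [rank_quot, Submodule.map_sup]
  rw [Submodule.mkQ_map_self, bot_sup_eq]

lemma rank_quot_right (A B : Submodule F V) :
    Module.rank F (↥(A ⊔ B) ⧸ B.submoduleOf (A ⊔ B)) = Module.rank F (A.map B.mkQ) := by
  rw [rank_quot, Submodule.map_sup]
  rw [Submodule.mkQ_map_self, sup_bot_eq]

lemma almostEq_iff {κ : Cardinal.{v}} (hκ : ℵ₀ ≤ κ) (A B : Submodule F V) :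
    AlmostEq κ A B ↔ Module.rank F (B.map A.mkQ) < κ ∧ Module.rank F (A.map B.mkQ) < κ := by
  unfold AlmostEq
  rw [rank_quot_left, rank_quot_right]
  constructor
  · intro h
    exact ⟨lt_of_le_of_lt (self_le_add_right _ _) h, lt_of_le_of_lt (self_le_add_left _ _) h⟩
  · rintro ⟨h1, h2⟩
    exact add_lt_of_lt hκ h1 h2

section transfer

variable {ι : Type} [Fintype ι] [DecidableEq ι] {U : Type v} [AddCommGroup U] [Module F U]
  (Φ : V ≃ₗ[F] (ι → U)) (W : ι → Submodule F V)

/-- the `j`-th coordinate -/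
def co (j : ι) : V →ₗ[F] U := LinearMap.proj j ∘ₗ Φ.toLinearMap

/-- the `i`-th inclusion -/
def inc (i : ι) : U →ₗ[F] V := Φ.symm.toLinearMap ∘ₗ LinearMap.single F (fun _ => U) i

lemma sum_inc_co : ∑ j, inc Φ j ∘ₗ co Φ j = LinearMap.id := by
  ext v
  apply Φ.injective
  simp only [LinearMap.sum_apply, LinearMap.comp_apply, inc, co, LinearEquiv.coe_coe,
    LinearMap.proj_apply, LinearMap.id_apply, map_sum, LinearEquiv.apply_symm_apply]
  ext j
  simp [Finset.sum_apply, Pi.single_apply]

lemma co_inc_ne (i j : ι) (h : j ≠ i) (u : U) : co Φ j (inc Φ i u) = 0 := by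
  simp [co, inc, Pi.single_apply, h]

lemma rank_finset_sum_lt {κ : Cardinal.{v}} (hκ : ℵ₀ ≤ κ) {A B : Type v} [AddCommGroup A]
    [Module F A] [AddCommGroup B] [Module F B] (s : Finset ι) (f : ι → A →ₗ[F] B)
    (h : ∀ i ∈ s, LinearMap.rank (f i) < κ) : LinearMap.rank (∑ i ∈ s, f i) < κ := by
  induction s using Finset.induction_on with
  | empty =>
    rw [Finset.sum_empty, LinearMap.rank_zero]
    exact lt_of_lt_of_le aleph0_pos hκ
  | insert a s ha ih =>
    rw [Finset.sum_insert ha]
    refine lt_of_le_of_lt (LinearMap.rank_add_le _ _) (add_lt_of_lt hκ ?_ ?_)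
    · exact h a (Finset.mem_insert_self _ _)
    · exact ih fun i hi => h i (Finset.mem_insert_of_mem hi)

lemma rank_map_eq_rank {A B : Type v} [AddCommGroup A] [Module F A] [AddCommGroup B] [Module F B]
    (f : A →ₗ[F] B) (C : Submodule F A) :
    Module.rank F (C.map f) = LinearMap.rank (f ∘ₗ C.subtype) := by
  unfold LinearMap.rank
  rw [LinearMap.range_comp, Submodule.range_subtype]

lemma small_iff (hΦ : ∀ i, W i = LinearMap.range (inc Φ i)) {κ : Cardinal.{v}} (hκ : ℵ₀ ≤ κ)
    (A : Submodule F V) (s : ι) :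
    Module.rank F (A.map (W s).mkQ) < κ ↔ ∀ j, j ≠ s → Module.rank F (A.map (co Φ j)) < κ := by
  constructor
  · intro h j hj
    have hker : W s ≤ LinearMap.ker (co Φ j) := by
      rw [hΦ s]
      rintro _ ⟨u, rfl⟩
      exact co_inc_ne Φ s j hj u
    have e : A.map (co Φ j) = (A.map (W s).mkQ).map ((W s).liftQ (co Φ j) hker) := by
      rw [← Submodule.map_comp, Submodule.liftQ_mkQ]
    rw [e]
    exact lt_of_le_of_lt (rank_map_le _ _) h
  · intro h
    rw [rank_map_eq_rank]
    have e : (W s).mkQ ∘ₗ A.subtype = ∑ j ∈ Finset.univ.erase s,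
        ((W s).mkQ ∘ₗ inc Φ j) ∘ₗ (co Φ j ∘ₗ A.subtype) := by
      have h1 : (W s).mkQ ∘ₗ A.subtype = ∑ j, ((W s).mkQ ∘ₗ inc Φ j) ∘ₗ (co Φ j ∘ₗ A.subtype) := by
        ext a
        have h2 := LinearMap.congr_fun (sum_inc_co Φ) (a : V)
        simp only [LinearMap.sum_apply, LinearMap.comp_apply, LinearMap.id_apply] at h2
        simp only [LinearMap.comp_apply, Submodule.subtype_apply, LinearMap.sum_apply]
        rw [← map_sum, h2]
      rw [h1, ← Finset.add_sum_erase _ _ (Finset.mem_univ s)]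
      have h3 : ((W s).mkQ ∘ₗ inc Φ s) ∘ₗ (co Φ s ∘ₗ A.subtype) = 0 := by
        ext a
        simp only [LinearMap.comp_apply, Submodule.mkQ_apply, LinearMap.zero_apply]
        rw [Submodule.Quotient.mk_eq_zero, hΦ s]
        exact ⟨_, rfl⟩
      rw [h3, zero_add]
    rw [e]
    apply rank_finset_sum_lt hκ
    intro j hj
    refine lt_of_le_of_lt (LinearMap.rank_comp_le_right _ _) ?_
    rw [← rank_map_eq_rank]
    exact h j (Finset.ne_of_mem_erase hj)

/-- The isomorphism of groups. -/
noncomputable def Θ : (V ≃ₗ[F] V) ≃* (Matrix ι ι (Module.End F U))ˣ :=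
  (LinearMap.GeneralLinearGroup.generalLinearEquiv F V).symm.trans
    (Units.mapEquiv ((Φ.conjRingEquiv).trans (endVecRingEquivMatrixEnd ι F U)).toMulEquiv)

lemma Θ_apply (g : V ≃ₗ[F] V) (j i : ι) :
    ((Θ Φ g : (Matrix ι ι (Module.End F U))ˣ) : Matrix ι ι (Module.End F U)) j i
      = co Φ j ∘ₗ g.toLinearMap ∘ₗ inc Φ i := by
  ext u
  rfl

lemma map_co (hΦ : ∀ i, W i = LinearMap.range (inc Φ i)) (g : V ≃ₗ[F] V) (j i : ι) :
    Module.rank F (((W i).map g.toLinearMap).map (co Φ j)) =
      LinearMap.rank (((Θ Φ g : (Matrix ι ι (Module.End F U))ˣ) : Matrix ι ι (Module.End F U)) j i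
        : U →ₗ[F] U) := by
  rw [Θ_apply]
  unfold LinearMap.rank
  rw [LinearMap.range_comp, LinearMap.range_comp, ← hΦ i]

lemma rank_mkQ_map (g : V ≃ₗ[F] V) (B C : Submodule F V) :
    Module.rank F (B.map (C.map g.toLinearMap).mkQ) =
      Module.rank F ((B.map (g⁻¹ : V ≃ₗ[F] V).toLinearMap).map C.mkQ) := by
  let E := Submodule.Quotient.equiv C (C.map g.toLinearMap) g rfl
  have e : B.map (C.map g.toLinearMap).mkQ =
      ((B.map (g⁻¹ : V ≃ₗ[F] V).toLinearMap).map C.mkQ).map E.toLinearMap := by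
    rw [← Submodule.map_comp, ← Submodule.map_comp]
    congr 1
    ext v
    simp only [LinearMap.comp_apply, Submodule.mkQ_apply, LinearEquiv.coe_coe, E]
    rw [Submodule.Quotient.equiv_apply, Submodule.mapQ_apply]
    congr 1
    exact (LinearEquiv.apply_symm_apply g v).symm
  rw [e]
  exact LinearEquiv.rank_map_eq E _

theorem transfer (hΦ : ∀ i, W i = LinearMap.range (inc Φ i)) (hU : ℵ₀ ≤ Module.rank F U)
    (D : Data (Module.End F U))
    (hD : ∀ f : Module.End F U, f ∈ D.I ↔ LinearMap.rank (f : U →ₗ[F] U) < Module.rank F U)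
    (g : V ≃ₗ[F] V) :
    (∃ σ : Equiv.Perm ι, ∀ i, AlmostEq (Module.rank F U) ((W i).map g.toLinearMap) (W (σ i))) ↔
      Θ Φ g ∈ M D ι := by
  have key : ∀ σ : Equiv.Perm ι, (∀ i, AlmostEq (Module.rank F U) ((W i).map g.toLinearMap)
      (W (σ i))) ↔ (MonoW D σ ((Θ Φ g : (Matrix ι ι (Module.End F U))ˣ) :
        Matrix ι ι (Module.End F U)) ∧
        ∀ i k, k ≠ i → (((Θ Φ g)⁻¹ : (Matrix ι ι (Module.End F U))ˣ) :
          Matrix ι ι (Module.End F U)) k (σ i) ∈ D.I) := by
    intro σ
    have h1 : ∀ i, AlmostEq (Module.rank F U) ((W i).map g.toLinearMap) (W (σ i)) ↔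
        ((∀ k, k ≠ i → (((Θ Φ g)⁻¹ : (Matrix ι ι (Module.End F U))ˣ) :
          Matrix ι ι (Module.End F U)) k (σ i) ∈ D.I) ∧
        (∀ j, j ≠ σ i → ((Θ Φ g : (Matrix ι ι (Module.End F U))ˣ) :
        Matrix ι ι (Module.End F U)) j i ∈ D.I)) := by
      intro i
      rw [almostEq_iff hU, rank_mkQ_map, small_iff Φ W hΦ hU, small_iff Φ W hΦ hU]
      constructor
      · rintro ⟨ha, hb⟩
        refine ⟨fun k hk => ?_, fun j hj => ?_⟩
        · rw [hD, ← map_inv, ← map_co Φ W hΦ]
          exact ha k hk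
        · rw [hD, ← map_co Φ W hΦ]
          exact hb j hj
      · rintro ⟨ha, hb⟩
        refine ⟨fun k hk => ?_, fun j hj => ?_⟩
        · have := ha k hk
          rw [hD, ← map_inv, ← map_co Φ W hΦ] at this
          exact this
        · have := hb j hj
          rw [hD, ← map_co Φ W hΦ] at this
          exact this
    constructor
    · intro h
      exact ⟨fun i j hj => ((h1 i).mp (h i)).2 j hj, fun i k hk => ((h1 i).mp (h i)).1 k hk⟩
    · rintro ⟨ha, hb⟩ i
      exact (h1 i).mpr ⟨hb i, ha i⟩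
  constructor
  · rintro ⟨σ, hσ⟩
    exact ⟨σ, ((key σ).mp hσ).1⟩
  · rintro ⟨σ, hσ⟩
    refine ⟨σ, (key σ).mpr ⟨hσ, fun i k hk => ?_⟩⟩
    apply MonoW.inv' D _ σ hσ
    simpa using hk

end transfer

/-- Existence of coordinates. -/
lemma exists_coord {ι : Type} [Fintype ι] [DecidableEq ι] (W : ι → Submodule F V)
    (hW : DirectSum.IsInternal W) {U : Type v} [AddCommGroup U] [Module F U]
    (e : ∀ i, W i ≃ₗ[F] U) :
    ∃ Φ : V ≃ₗ[F] (ι → U), ∀ i, W i = LinearMap.range (inc Φ i) := by
  let Φ : V ≃ₗ[F] (ι → U) := (LinearEquiv.ofBijective (DirectSum.coeLinearMap W) hW).symm ≪≫ₗ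
    DirectSum.linearEquivFunOnFintype F ι (fun i => W i) ≪≫ₗ LinearEquiv.piCongrRight e
  have hΦ : ∀ i (w : W i), Φ (w : V) = Pi.single i (e i w) := by
    intro i w
    have h1 : (LinearEquiv.ofBijective (DirectSum.coeLinearMap W) hW).symm (w : V)
        = DirectSum.lof F ι (fun i => W i) i w := by
      rw [LinearEquiv.symm_apply_eq]
      exact (DirectSum.coeLinearMap_lof W i w).symm
    show LinearEquiv.piCongrRight e (DirectSum.linearEquivFunOnFintype F ι (fun i => W i)
      ((LinearEquiv.ofBijective (DirectSum.coeLinearMap W) hW).symm (w : V))) = _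
    rw [h1, DirectSum.linearEquivFunOnFintype_lof]
    ext j
    by_cases hj : j = i
    · subst hj; simp
    · simp [hj]
  refine ⟨Φ, fun i => ?_⟩
  ext v
  constructor
  · intro hv
    refine ⟨e i ⟨v, hv⟩, ?_⟩
    show Φ.symm (Pi.single i (e i ⟨v, hv⟩)) = v
    rw [LinearEquiv.symm_apply_eq]
    exact (hΦ i ⟨v, hv⟩).symm
  · rintro ⟨u, rfl⟩
    show Φ.symm (Pi.single i u) ∈ W i
    have : Pi.single i u = Φ (((e i).symm u : W i) : V) := by
      rw [hΦ]; simp
    rw [this, LinearEquiv.symm_apply_apply]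
    exact ((e i).symm u).2

/-- **Main theorem.** -/
theorem main (κ : Cardinal.{v}) (hκ : ℵ₀ ≤ κ) (n : ℕ) (hn : 2 ≤ n) (W : Fin n → Submodule F V)
    (hW : DirectSum.IsInternal W) (hdim : ∀ i, Module.rank F (W i) = κ) :
    ∃ M : Subgroup (V ≃ₗ[F] V),
      (∀ g : V ≃ₗ[F] V, g ∈ M ↔ ∃ σ : Equiv.Perm (Fin n), ∀ i,
        AlmostEq κ ((W i).map g.toLinearMap) (W (σ i))) ∧ IsCoatom M := by
  obtain ⟨m, rfl⟩ : ∃ m, n = m + 2 := ⟨n - 2, by omega⟩
  have he : ∀ i, Nonempty (W i ≃ₗ[F] W 0) := fun i =>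
    nonempty_linearEquiv_of_rank_eq (by rw [hdim, hdim])
  let e : ∀ i, W i ≃ₗ[F] W 0 := fun i => (he i).some
  obtain ⟨Φ, hΦ⟩ := exists_coord W hW e
  have hU : ℵ₀ ≤ Module.rank F (W 0) := by rw [hdim]; exact hκ
  obtain ⟨D, hD⟩ := exists_data (F := F) (W 0) hU
  refine ⟨(M D (Fin (m + 2))).comap (Θ Φ).toMonoidHom, ?_, ?_⟩
  · intro g
    have := transfer Φ W hΦ hU D hD g
    rw [hdim 0] at this
    rw [this]
    rfl
  · have h := isCoatom_M D (ι := Fin (m + 2))
    exact ((MulEquiv.comapSubgroup (Θ Φ)).isCoatom_iff (M D (Fin (m + 2)))).mpr h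

end Q250.AS
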